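import Pool.Agent.P.MP_892330_gt.All.Core

/-! Indecomposable subcontinua of full dimension, in every dimension at least two, for compact
Hausdorff spaces without an uncountable od. -/

namespace Pool.Agent.Results.MP_892330_gt.AllDims

open Set

universe u

/-- Every finite open cover of `S` has a finite open refinement of order at most `n + 1`. -/
def CovDimLe {X : Type u} [TopologicalSpace X] (S : Set X) (n : ℕ) : Prop :=
  ∀ (m : ℕ) (U : Fin m → Set X), (∀ i, IsOpen (U i)) → S ⊆ ⋃ i, U i →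
    ∃ (k : ℕ) (V : Fin k → Set X), (∀ j, IsOpen (V j)) ∧ S ⊆ ⋃ j, V j ∧
      (∀ j, ∃ i, V j ⊆ U i) ∧ ∀ x ∈ S, {j : Fin k | x ∈ V j}.ncard ≤ n + 1

/-- Covering dimension of a nonempty set: the least `n` with `CovDimLe S n`, or infinity. -/
noncomputable def covDim {X : Type u} [TopologicalSpace X] (S : Set X) : ℕ∞ :=
  ⨅ (n : ℕ) (_ : CovDimLe S n), (n : ℕ∞)

/-- A nonempty compact connected subset. -/
def IsContinuum {X : Type u} [TopologicalSpace X] (S : Set X) : Prop :=
  IsCompact S ∧ IsConnected S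

/-- Not the union of two proper subcontinua. -/
def Indecomposable {X : Type u} [TopologicalSpace X] (K : Set X) : Prop :=
  ∀ P Q : Set X, IsContinuum P → IsContinuum Q → P ∪ Q = K → P = K ∨ Q = K

theorem result (X : Type u) [TopologicalSpace X] [T2Space X] [CompactSpace X]
    (hod : ∀ T Z : Set X, IsContinuum T → IsContinuum Z → Z ⊆ T →
      Countable (ConnectedComponents (T \ Z : Set X)))
    (n : ℕ) (hn : 2 ≤ n) (hdim : (n : ℕ∞) ≤ covDim (univ : Set X)) :
    ∃ K : Set X, IsContinuum K ∧ Indecomposable K ∧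
      (n : ℕ∞) ≤ covDim K ∧ covDim K ≤ covDim (univ : Set X) := by
  obtain ⟨m, rfl⟩ : ∃ m, n = m + 1 := ⟨n - 1, by omega⟩
  have hD : ¬ Pool.Agent.P.MP_892330_gt.DimLe (univ : Set X) m := by
    intro h
    have h1 : covDim (univ : Set X) ≤ (m : ℕ∞) := iInf₂_le (f := fun (n : ℕ)
      (_ : CovDimLe (univ : Set X) n) => (n : ℕ∞)) m h
    have h2 : m + 1 ≤ m := by exact_mod_cast hdim.trans h1
    omega
  obtain ⟨K, hK, hKc, hKd, hind⟩ := Pool.Agent.P.MP_892330_gt.All.exists_indecomposable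
    (fun T Z a b c d e => hod T Z ⟨a, b⟩ ⟨c, d⟩ e) (by omega) hD
  refine ⟨K, ⟨hK, hKc⟩, fun P Q hP hQ h => hind P Q hP.1 hP.2 hQ.1 h, ?_, ?_⟩
  · refine le_iInf₂ fun k hk => ?_
    have : m + 1 ≤ k := by
      by_contra hlt
      exact hKd (Pool.Agent.P.MP_892330_gt.All.dimLe_mono (by omega) hk)
    exact_mod_cast this
  · refine le_iInf₂ fun k hk => ?_
    exact iInf₂_le (f := fun (n : ℕ) (_ : CovDimLe K n) => (n : ℕ∞)) k
      (Pool.Agent.P.MP_892330_gt.dimLe_of_closed hK.isClosed hKc.nonempty hk)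

end Pool.Agent.Results.MP_892330_gt.AllDims
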